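import Pool.Agent.MP_278f54_co.H42.Simplex

set_option autoImplicit false

namespace Pool.Agent.Results.MP_278f54_co.Ratio

open MeasureTheory Metric Set Pool.Agent.MP_278f54_co.H42

/-- Euclidean space -/
abbrev Euc (d : ℕ) : Type := EuclideanSpace ℝ (Fin d)

/-- Lebesgue measure as a real number -/
noncomputable def vol {d : ℕ} (S : Set (Euc d)) : ℝ := (volume S).toReal

/-- the density of the unit balls with centres `c` in their outer parallel domain -/
noncomputable def density {d n : ℕ} (c : Fin n → Euc d) (lam : ℝ) : ℝ :=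
  n * vol (closedBall (0 : Euc d) 1) / vol (⋃ i, closedBall (c i) (1 + lam))

/-- the simplex ratio for the simplex with vertices `t` -/
noncomputable def sigma {d : ℕ} (t : Fin (d + 1) → Euc d) (lam : ℝ) : ℝ :=
  (d + 1) * vol (convexHull ℝ (range t) ∩ closedBall (t 0) 1) /
    vol (convexHull ℝ (range t) ∩ ⋃ i, closedBall (t i) (1 + lam))

lemma cross (d : ℕ) (hd : 1 ≤ d) (lam : ℝ) (hlam : 0 < lam) (n : ℕ) (c : Fin n → Euc d)
    (hc : ∀ i j, i ≠ j → 2 ≤ ‖c i - c j‖) (t : Fin (d + 1) → Euc d)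
    (ht : ∀ i j, i ≠ j → dist (t i) (t j) = 2) :
    (n : ENNReal) * volume (closedBall (0 : Euc d) 1)
        * volume (convexHull ℝ (range t) ∩ ⋃ i, closedBall (t i) (1 + lam))
      ≤ ((d : ENNReal) + 1) * volume (convexHull ℝ (range t) ∩ closedBall (t 0) 1)
        * volume (⋃ i, closedBall (c i) (1 + lam)) := by
  classical
  obtain ⟨T, g, S, hT⟩ := regS_of_dist t ht
  obtain ⟨K, hK1, hK2⟩ := simplex_bound S (1 + lam)
  have hinj : Function.Injective c := by
    intro i j hij
    by_contra hne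
    have := hc i j hne
    rw [hij, sub_self, norm_zero] at this
    norm_num at this
  have hP : Pack (Finset.univ.image c) := by
    intro x hx y hy hne
    obtain ⟨i, _, rfl⟩ := Finset.mem_image.1 hx
    obtain ⟨j, _, rfl⟩ := Finset.mem_image.1 hy
    have := hc i j (fun h => hne (by rw [h]))
    nlinarith
  have hB := packing_bound (R := 1 + lam) (by linarith) hd hP
  have e1 : (⋃ x ∈ Finset.univ.image c, closedBall x (1 + lam))
      = ⋃ i : Fin n, closedBall (c i) (1 + lam) := by
    ext x; simp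
  have e2 : (⋃ x ∈ T, closedBall x (1 + lam))
      = ⋃ i : Fin (d + 1), closedBall (t i) (1 + lam) := by
    have : (⋃ x ∈ T, closedBall x (1 + lam))
        = ⋃ x ∈ (T : Set (Euc d)), closedBall x (1 + lam) := rfl
    rw [this, hT, Set.biUnion_range]
  have h0 : t 0 ∈ T := by
    rw [← Finset.mem_coe, hT]; exact Set.mem_range_self 0
  have hK3 := hK2 (t 0) h0
  rw [e1, Finset.card_image_of_injective _ hinj, Finset.card_univ, Fintype.card_fin] at hB
  rw [e2, hT] at hK1
  rw [hT] at hK3
  refine le_trans (mul_le_mul_right hK1 _) ?_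
  refine le_trans ?_ (mul_le_mul_left (mul_le_mul_right hK3 _) _)
  have := mul_le_mul_right hB (((d : ENNReal) + 1) * K)
  refine le_trans (le_of_eq ?_) (this.trans (le_of_eq ?_)) <;> ring

lemma indep {d : ℕ} (t : Fin (d + 1) → Euc d) (ht : ∀ i j, i ≠ j → dist (t i) (t j) = 2) :
    AffineIndependent ℝ t := by
  classical
  refine affineIndependent_iff.mpr fun s w h0 h1 e he => ?_
  have hd : ∀ i j, inner ℝ (t i) (t j) =
      (‖t i‖ ^ 2 + ‖t j‖ ^ 2 - 4) / 2 + if i = j then 2 else 0 := by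
    intro i j
    split_ifs with h
    · rw [h, real_inner_self_eq_norm_sq]; ring
    · have h2 := norm_sub_sq_real (t i) (t j)
      rw [← dist_eq_norm, ht i j h] at h2
      linarith
  have h2 : ∀ j ∈ s, (∑ i ∈ s, w i * ‖t i‖ ^ 2) / 2 + 2 * w j = 0 := by
    intro j hj
    have := congrArg (fun x => inner ℝ x (t j)) h1
    simp only [sum_inner, real_inner_smul_left, inner_zero_left, hd, mul_add, mul_ite, mul_zero,
      Finset.sum_add_distrib, Finset.sum_ite_eq', if_pos hj] at this
    have e : ∀ i, w i * ((‖t i‖ ^ 2 + ‖t j‖ ^ 2 - 4) / 2) =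
        w i * ‖t i‖ ^ 2 / 2 + w i * ((‖t j‖ ^ 2 - 4) / 2) := fun i => by ring
    simp only [e, Finset.sum_add_distrib, ← Finset.sum_mul, h0, ← Finset.sum_div] at this
    linarith
  have h3 := Finset.sum_eq_zero h2
  rw [Finset.sum_add_distrib, ← Finset.mul_sum, h0, Finset.sum_const, nsmul_eq_mul] at h3
  have h4 : (0 : ℝ) < s.card := Nat.cast_pos.mpr (Finset.card_pos.mpr ⟨e, he⟩)
  have h5 := h2 e he
  have h6 : (∑ i ∈ s, w i * ‖t i‖ ^ 2) / 2 = 0 :=
    (mul_eq_zero.mp (by linarith)).resolve_left h4.ne'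
  linarith

lemma simplex_pos {d : ℕ} (t : Fin (d + 1) → Euc d) (ht : ∀ i j, i ≠ j → dist (t i) (t j) = 2)
    {R : ℝ} (hR : 0 < R) : volume (convexHull ℝ (range t) ∩ ⋃ i, closedBall (t i) R) ≠ 0 := by
  have h1 : (interior (convexHull ℝ (range t))).Nonempty :=
    interior_convexHull_nonempty_iff_affineSpan_eq_top.mpr
      ((indep t ht).affineSpan_eq_top_iff_card_eq_finrank_add_one.mpr (by simp))
  have h2 : t 0 ∈ closure (interior (convexHull ℝ (range t))) := by
    rw [(convex_convexHull ℝ _).closure_interior_eq_closure_of_nonempty_interior h1]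
    exact subset_closure (subset_convexHull ℝ _ (mem_range_self 0))
  have h3 := mem_closure_iff.mp h2 _ isOpen_ball (mem_ball_self hR)
  refine (((isOpen_ball.inter isOpen_interior).measure_pos volume h3).trans_le
    (measure_mono fun x hx => ?_)).ne'
  exact ⟨interior_subset hx.2, mem_iUnion.mpr ⟨0, ball_subset_closedBall hx.1⟩⟩

theorem result (d : ℕ) (hd : 1 ≤ d) (lam : ℝ) (hlam : 0 < lam) (n : ℕ) (hn : 1 ≤ n)
    (c : Fin n → Euc d) (hc : ∀ j k, j ≠ k → 2 ≤ ‖c j - c k‖)
    (t : Fin (d + 1) → Euc d) (ht : ∀ i j, i ≠ j → dist (t i) (t j) = 2) :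
    density c lam ≤ sigma t lam := by
  have fin : ∀ (m : ℕ) (c : Fin m → Euc d) (R : ℝ), volume (⋃ i, closedBall (c i) R) ≠ ⊤ :=
    fun m c R => (isCompact_iUnion fun i => isCompact_closedBall _ _).measure_lt_top.ne
  have h := cross d hd lam hlam n c hc t ht
  have p1 : 0 < vol (⋃ i, closedBall (c i) (1 + lam)) := ENNReal.toReal_pos
    ((measure_closedBall_pos volume (c ⟨0, hn⟩) (by linarith : 0 < 1 + lam)).trans_le
      (measure_mono (subset_iUnion (fun i => closedBall (c i) (1 + lam)) _))).ne' (fin _ _ _)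
  have p2 : 0 < vol (convexHull ℝ (range t) ∩ ⋃ i, closedBall (t i) (1 + lam)) :=
    ENNReal.toReal_pos (simplex_pos t ht (by linarith))
      (ne_top_of_le_ne_top (fin _ _ _) (measure_mono inter_subset_right))
  rw [sigma, density, div_le_div_iff₀ p1 p2]
  have h2 := ENNReal.toReal_mono (ENNReal.mul_ne_top (ENNReal.mul_ne_top (by simp)
    (ne_top_of_le_ne_top measure_closedBall_lt_top.ne (measure_mono inter_subset_right)))
    (fin _ _ _)) h
  simpa [ENNReal.toReal_mul, ENNReal.toReal_add, vol] using h2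

end Pool.Agent.Results.MP_278f54_co.Ratio
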